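import Mathlib

set_option autoImplicit false

namespace Pool.Agent.H.MP_95d40a_an

open Filter Topology
open scoped ENNReal ComplexConjugate

lemma young {θ η r a b : ℝ} (r0 : 0 < r) (h1 : r ≤ θ) (h2 : r ≤ η) (h : θ + η = 1) (ha : 0 ≤ a)
    (hb : 0 ≤ b) : (a ^ 2) ^ θ * (b ^ 2) ^ η ≤ θ * a ^ 2 + η * b ^ 2 - r * (a - b) ^ 2 := by
  rcases ha.eq_or_lt with rfl | ha
  · rw [sq (0 : ℝ), zero_mul, Real.zero_rpow (by linarith), zero_mul]
    nlinarith [sq_nonneg b]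
  rcases hb.eq_or_lt with rfl | hb
  · rw [sq (0 : ℝ), zero_mul, Real.zero_rpow (by linarith), mul_zero]
    nlinarith [sq_nonneg a]
  have := Real.geom_mean_le_arith_mean3_weighted (w₁ := θ - r) (w₂ := η - r) (w₃ := 2 * r)
    (p₁ := a ^ 2) (p₂ := b ^ 2) (p₃ := a * b) (by linarith) (by linarith) (by linarith)
    (by positivity) (by positivity) (by positivity) (by linarith)
  rw [Real.rpow_mul (by positivity), Real.rpow_two, mul_pow, Real.mul_rpow (by positivity)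
    (by positivity), mul_mul_mul_comm, ← Real.rpow_add (by positivity),
    ← Real.rpow_add (by positivity), sub_add_cancel, sub_add_cancel] at this
  linarith

lemma rad {p q : ℝ} (h : p.HolderConjugate q) : ∃ C : ℝ, 0 < C ∧ ∀ ε u w : ℝ, 0 ≤ ε → 0 ≤ u →
    0 ≤ w → u + w ≤ 1 → ε * |q * u - p * w| + u ^ q⁻¹ * w ^ p⁻¹ ≤
      1 / (p ^ (1 / p) * q ^ (1 / q)) * (1 + C * ε ^ 2) := by
  have p1 := h.lt
  have q1 := h.symm.lt
  have p0 := h.pos
  have q0 := h.symm.pos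
  obtain ⟨κ, hκ⟩ : ∃ κ, κ = 1 / (p ^ (1 / p) * q ^ (1 / q)) := ⟨_, rfl⟩
  have k0 : 0 < κ := by rw [hκ]; positivity
  have r0 : 0 < min q⁻¹ p⁻¹ := by positivity
  refine ⟨(p + q) ^ 2 / (4 * κ ^ 2 * min q⁻¹ p⁻¹), by positivity, fun ε u w hε hu hw h1 => ?_⟩
  obtain ⟨a, a0, ha⟩ : ∃ a, 0 ≤ a ∧ a ^ 2 = q * u :=
    ⟨_, Real.sqrt_nonneg _, Real.sq_sqrt (by positivity)⟩
  obtain ⟨b, b0, hb⟩ : ∃ b, 0 ≤ b ∧ b ^ 2 = p * w :=
    ⟨_, Real.sqrt_nonneg _, Real.sq_sqrt (by positivity)⟩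
  have y := young r0 (min_le_left _ _) (min_le_right _ _) h.symm.inv_add_inv_eq_one a0 b0
  have e : u ^ q⁻¹ * w ^ p⁻¹ = κ * ((a ^ 2) ^ q⁻¹ * (b ^ 2) ^ p⁻¹) := by
    rw [ha, hb, Real.mul_rpow q0.le hu, Real.mul_rpow p0.le hw, hκ, one_div p, one_div q]
    field_simp
  have a1 : a ≤ q := by nlinarith
  have b1 : b ≤ p := by nlinarith
  have e1 : q⁻¹ * a ^ 2 + p⁻¹ * b ^ 2 = u + w := by rw [ha, hb]; field_simp
  rw [← hκ, e, ← ha, ← hb, sq_sub_sq, abs_mul, abs_of_nonneg (by positivity : 0 ≤ a + b)]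
  rw [e1, ← sq_abs (a - b)] at y
  have d0 := abs_nonneg (a - b)
  generalize |a - b| = d at *
  generalize min q⁻¹ p⁻¹ = r at *
  have t1 : ε * ((a + b) * d) ≤ ε * ((p + q) * d) :=
    mul_le_mul_of_nonneg_left (mul_le_mul_of_nonneg_right (by linarith) d0) hε
  have t2 : κ * (1 + (p + q) ^ 2 / (4 * κ ^ 2 * r) * ε ^ 2) - κ * (1 - r * d ^ 2) -
      ε * ((p + q) * d) = (ε * (p + q) - 2 * κ * r * d) ^ 2 / (4 * κ * r) := by
    field_simp
    ring
  have t3 : 0 ≤ (ε * (p + q) - 2 * κ * r * d) ^ 2 / (4 * κ * r) := by positivity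
  nlinarith [mul_le_mul_of_nonneg_left (y.trans (sub_le_sub_right h1 _)) k0.le]

lemma small {a c : ℝ} (ha : 0 < a) (hc : 0 < c) : ∃ δ : ℝ, 0 < δ ∧ δ ≤ 1 ∧ δ ^ a < c := by
  refine ⟨min 1 ((c / 2) ^ a⁻¹), by positivity, min_le_left _ _, ?_⟩
  calc _ ≤ ((c / 2) ^ a⁻¹) ^ a := by gcongr; exact min_le_right _ _
    _ = c / 2 := Real.rpow_inv_rpow (by positivity) ha.ne'
    _ < c := by linarith

lemma gain {p q C : ℝ} (h : p.HolderConjugate q) (h2 : p ≠ 2) (C0 : 0 < C) :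
    ∃ ε δ : ℝ, 0 ≤ ε ∧ 0 ≤ δ ∧
      (1 + C * ε ^ 2) ^ p * (δ ^ p + 1) < (ε * q * δ + 1) ^ p + (ε * p) ^ p := by
  have p1 := h.lt
  have q0 := h.symm.pos
  have p0 := h.pos
  rcases lt_or_gt_of_ne h2 with h2 | h2
  · obtain ⟨ε, e0, e1, e2⟩ := small (a := 2 - p) (c := p ^ p / (2 * C + C ^ 2)) (by linarith)
      (by positivity)
    refine ⟨ε, 0, e0.le, le_rfl, ?_⟩
    rw [Real.zero_rpow p0.ne', mul_zero, zero_add, Real.one_rpow, mul_one,
      Real.mul_rpow e0.le p0.le]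
    have a1 : (1 + C * ε ^ 2) ^ p ≤ (1 + C * ε ^ 2) ^ (2 : ℝ) :=
      Real.rpow_le_rpow_of_exponent_le (by nlinarith [sq_nonneg ε]) h2.le
    have a2 : ε ^ 2 = ε ^ p * ε ^ (2 - p) := by
      rw [← Real.rpow_add e0, add_sub_cancel, Real.rpow_two]
    have a3 : ε ^ 2 ≤ 1 := pow_le_one₀ e0.le e1
    rw [lt_div_iff₀ (by positivity)] at e2
    rw [Real.rpow_two] at a1
    have a4 := mul_lt_mul_of_pos_left e2 (Real.rpow_pos_of_pos e0 p)
    rw [← mul_assoc, ← a2] at a4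
    nlinarith [mul_le_mul_of_nonneg_left a3 (by positivity : 0 ≤ C ^ 2 * ε ^ 2)]
  · obtain ⟨δ, e0, e1, e2⟩ := small (a := p / 2 - 1) (c := q / (2 * C + 1)) (by linarith)
      (by positivity)
    refine ⟨δ ^ (p / 2), δ, by positivity, e0.le, ?_⟩
    have a1 : (δ ^ (p / 2)) ^ 2 = δ ^ p := by
      rw [← Real.rpow_two, ← Real.rpow_mul e0.le]; congr 1; ring
    have a2 : δ ^ p = δ ^ (p / 2) * δ * δ ^ (p / 2 - 1) := by
      rw [← Real.rpow_add_one e0.ne', ← Real.rpow_add e0]; congr 1; ring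
    have a3 : δ ^ p ≤ 1 := Real.rpow_le_one e0.le e1 p0.le
    have a4 : 0 < δ ^ p := by positivity
    have a5 : δ ^ p + 1 ≤ (δ ^ p + 1) ^ p := Real.self_le_rpow_of_one_le (by linarith) p1.le
    rw [lt_div_iff₀ (by positivity)] at e2
    have a6 := mul_lt_mul_of_pos_left e2 (by positivity : 0 < δ ^ (p / 2) * δ)
    rw [← mul_assoc, ← a2] at a6
    rw [a1]
    calc _ ≤ (1 + C * δ ^ p) ^ p * (δ ^ p + 1) ^ p := by gcongr
      _ = ((1 + C * δ ^ p) * (δ ^ p + 1)) ^ p := (Real.mul_rpow (by positivity) (by positivity)).symm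
      _ < (δ ^ (p / 2) * q * δ + 1) ^ p := by
          gcongr
          nlinarith [mul_le_mul_of_nonneg_left a3 (by positivity : 0 ≤ C * δ ^ p)]
      _ ≤ _ := le_add_of_nonneg_right (by positivity)

variable {ι : Type} [DecidableEq ι] {p : ℝ≥0∞} [Fact (1 ≤ p)]

lemma nrm2 (hp : 0 < p.toReal) (x : lp (fun _ : ι => ℂ) p) {i j : ι} (h : i ≠ j) (a b : ℂ) :
    ‖x + (lp.single p i a + lp.single p j b)‖ ^ p.toReal = ‖x‖ ^ p.toReal +
      (‖x i + a‖ ^ p.toReal - ‖x i‖ ^ p.toReal + (‖x j + b‖ ^ p.toReal - ‖x j‖ ^ p.toReal)) := by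
  obtain ⟨y, hy⟩ : ∃ y : lp (fun _ : ι => ℂ) p, y = x + (lp.single p i a + lp.single p j b) :=
    ⟨_, rfl⟩
  have e : ∀ m, y m = x m + (Pi.single (M := fun _ => ℂ) i a m + Pi.single (M := fun _ => ℂ) j b m) :=
    fun m => by rw [hy]; rfl
  have k := hasSum_sum_of_ne_finset_zero (s := {i, j}) (L := .unconditional ι)
    (f := fun m => ‖y m‖ ^ p.toReal - ‖x m‖ ^ p.toReal) fun m hm => by
      simp only [Finset.mem_insert, Finset.mem_singleton, not_or] at hm
      rw [e, Pi.single_eq_of_ne hm.1, Pi.single_eq_of_ne hm.2, add_zero, add_zero, sub_self]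
  have := ((lp.hasSum_norm hp y).sub (lp.hasSum_norm hp x)).unique k
  rw [Finset.sum_pair h, e, e, Pi.single_eq_same, Pi.single_eq_same, Pi.single_eq_of_ne h,
    Pi.single_eq_of_ne h.symm, add_zero, zero_add] at this
  rw [← hy, ← this, add_sub_cancel]

lemma dual (hp : 1 < p.toReal) (x : lp (fun _ : ι => ℂ) p) (l : lp (fun _ : ι => ℂ) p →L[ℂ] ℂ)
    (hx : ‖x‖ = 1) (hl : ‖l‖ = 1) (h1 : l x = 1) {i j : ι} (h : i ≠ j) :
    l (lp.single p i 1) = (‖x i‖ ^ (p.toReal - 2) : ℝ) * conj (x i) := by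
  have key : ∀ w : ℂ, (w * l (lp.single p i 1)).re = ‖x i‖ ^ (p.toReal - 2) * (w * conj (x i)).re := by
    intro w
    have hmin : IsLocalMin (fun t : ℝ => ‖x i + t * w‖ ^ p.toReal -
        ‖1 + t * (w * l (lp.single p i 1)).re‖ ^ p.toReal) 0 := by
      refine Eventually.of_forall fun t => ?_
      have a1 := l.le_opNorm (x + (lp.single p i (t * w) + lp.single p j 0))
      have a2 : (l (x + (lp.single p i (t * w) + lp.single p j 0))).re =
          1 + t * (w * l (lp.single p i 1)).re := by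
        rw [lp.single_zero, add_zero, map_add, h1, ← mul_one (t * w : ℂ), ← smul_eq_mul,
          lp.single_smul, map_smul, smul_eq_mul, mul_assoc, Complex.add_re, Complex.re_ofReal_mul]
        simp
      rw [hl, one_mul] at a1
      have a3 := Real.rpow_le_rpow (abs_nonneg _) ((Complex.abs_re_le_norm _).trans a1)
        (by linarith : 0 ≤ p.toReal)
      rw [a2, nrm2 (by linarith) x h, hx] at a3
      simp only [Complex.ofReal_zero, zero_mul, add_zero, norm_one, Real.norm_eq_abs] at a3 ⊢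
      linarith
    have d1 : HasDerivAt (fun t : ℝ => x i + t * w) w 0 := by
      simpa using ((Complex.ofRealCLM.hasDerivAt (x := 0)).mul_const w).const_add (x i)
    have d2 : HasDerivAt (fun t : ℝ => 1 + t * (w * l (lp.single p i 1)).re)
        (w * l (lp.single p i 1)).re 0 := by
      simpa using ((hasDerivAt_id (0 : ℝ)).mul_const (w * l (lp.single p i 1)).re).const_add 1
    have := hmin.hasDerivAt_eq_zero
      (((hasFDerivAt_norm_rpow _ hp).comp_hasDerivAt 0 d1).sub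
        ((hasFDerivAt_norm_rpow _ hp).comp_hasDerivAt 0 d2))
    simp only [Complex.ofReal_zero, zero_mul, add_zero, smul_apply, innerSL_apply_apply,
      Complex.inner, norm_one, Real.one_rpow, mul_one, smul_eq_mul, Real.inner_apply,
      one_mul] at this
    refine mul_left_cancel₀ (by linarith : p.toReal ≠ 0) ?_
    linarith
  have a := key 1
  have b := key Complex.I
  apply Complex.ext <;> simp at a b ⊢ <;> linarith

theorem main (hp : 1 < p.toReal) (h2 : p.toReal ≠ 2) {i j : ι} (h : i ≠ j) :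
    ∃ T : lp (fun _ : ι => ℂ) p →L[ℂ] lp (fun _ : ι => ℂ) p, ‖T‖ = 1 ∧ ∃ c : ℝ, 0 ≤ c ∧
      c < 1 / (p.toReal ^ (1 / p.toReal) *
        (p.toReal / (p.toReal - 1)) ^ (1 / (p.toReal / (p.toReal - 1)))) ∧
      ∀ (x : lp (fun _ : ι => ℂ) p) (l : lp (fun _ : ι => ℂ) p →L[ℂ] ℂ), ‖x‖ = 1 → ‖l‖ = 1 →
        l x = 1 → ‖l (T x)‖ ≤ c := by
  have hc := Real.HolderConjugate.conjExponent hp
  rw [Real.conjExponent] at hc
  generalize p.toReal / (p.toReal - 1) = q at *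
  have q0 := hc.symm.pos
  have p0 := hc.pos
  obtain ⟨C, C0, hC⟩ := rad hc
  obtain ⟨ε, δ, e0, d0, hg⟩ := gain hc h2 C0
  set T : lp (fun _ : ι => ℂ) p →L[ℂ] lp (fun _ : ι => ℂ) p :=
    ((ε * q : ℂ) • lp.evalCLM ℂ (fun _ : ι => ℂ) p i + lp.evalCLM ℂ (fun _ : ι => ℂ) p j).smulRight
      (lp.single p i 1) +
    ((-(ε * p.toReal) : ℂ) • lp.evalCLM ℂ (fun _ : ι => ℂ) p j).smulRight (lp.single p j 1)
  have tx : ∀ x, T x = (ε * q * x i + x j) • lp.single p i (1 : ℂ) +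
      (-(ε * p.toReal) * x j) • lp.single p j (1 : ℂ) := fun x => rfl
  have n0 : ∀ a b : ℂ, ‖(lp.single p i a + lp.single p j b : lp (fun _ : ι => ℂ) p)‖ ^ p.toReal =
      ‖a‖ ^ p.toReal + ‖b‖ ^ p.toReal := fun a b => by
    simpa [Real.zero_rpow p0.ne'] using nrm2 p0 0 h a b
  have h1 : 1 + C * ε ^ 2 < ‖T‖ := by
    have := Real.rpow_le_rpow (norm_nonneg _)
      (T.le_opNorm (lp.single p i δ + lp.single p j 1)) p0.le
    rw [Real.mul_rpow (norm_nonneg _) (norm_nonneg _), tx, ← lp.single_smul, ← lp.single_smul,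
      n0, n0] at this
    simp only [lp.coeFn_add, Pi.add_apply, lp.single_apply_self, lp.single_apply_ne p i _ h.symm,
      lp.single_apply_ne p j _ h, add_zero, zero_add, smul_eq_mul, mul_one, norm_neg, norm_one,
      Real.one_rpow] at this
    rw [← Complex.ofReal_mul, ← Complex.ofReal_mul, ← Complex.ofReal_mul, ← Complex.ofReal_one,
      ← Complex.ofReal_add, Complex.norm_real, Complex.norm_real, Complex.norm_real,
      Real.norm_of_nonneg (by positivity), Real.norm_of_nonneg (by positivity),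
      Real.norm_of_nonneg d0] at this
    have := lt_of_mul_lt_mul_right (hg.trans_le this) (by positivity)
    exact (Real.rpow_lt_rpow_iff (by positivity) (norm_nonneg _) p0).1 this
  have t0 : 0 < ‖T‖ := lt_trans (by positivity) h1
  refine ⟨((‖T‖⁻¹ : ℝ) : ℂ) • T, by
    rw [norm_smul, Complex.norm_real, norm_inv, norm_norm, inv_mul_cancel₀ t0.ne'],
    ‖T‖⁻¹ * (1 / (p.toReal ^ (1 / p.toReal) * q ^ (1 / q)) * (1 + C * ε ^ 2)), by positivity, ?_,
    fun x l hx hl h1 => ?_⟩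
  · rw [inv_mul_lt_iff₀ t0, mul_comm]
    gcongr
  have s := lp.sum_rpow_le_norm_rpow p0 x {i, j}
  rw [Finset.sum_pair h, hx, Real.one_rpow] at s
  have k := hC ε _ _ e0 (by positivity) (by positivity) s
  have m : ∀ z : ℂ, z * ((‖z‖ ^ (p.toReal - 2) : ℝ) * conj z) = (‖z‖ ^ p.toReal : ℝ) := fun z => by
    rw [mul_left_comm, Complex.mul_conj', ← Complex.ofReal_pow, ← Complex.ofReal_mul,
      ← Real.rpow_two, ← Real.rpow_add' (norm_nonneg _) (by linarith), sub_add_cancel]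
  rw [smul_apply, map_smul, norm_smul, Complex.norm_real, norm_inv, norm_norm]
  gcongr
  refine le_trans ?_ k
  rw [tx, map_add, map_smul, map_smul, dual hp x l hx hl h1 h, dual hp x l hx hl h1 h.symm,
    smul_eq_mul, smul_eq_mul, mul_assoc (-_ : ℂ), m, add_mul, mul_assoc (ε * q : ℂ), m, add_right_comm]
  refine (norm_add_le _ _).trans (le_of_eq ?_)
  congr 1
  · have nm : ∀ r : ℝ, ε * |r| = ‖((ε * r : ℝ) : ℂ)‖ := fun r => by
      rw [Complex.norm_real, Real.norm_eq_abs, abs_mul, abs_of_nonneg e0]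
    rw [nm]
    congr 1
    push_cast
    ring
  · rw [norm_mul, norm_mul, Complex.norm_conj, Complex.norm_real,
      Real.norm_of_nonneg (by positivity), Real.rpow_rpow_inv (norm_nonneg _) p0.ne', mul_comm,
      ← Real.rpow_mul (norm_nonneg _), ← Real.rpow_add_one' (norm_nonneg _) (by linarith)]
    congr 2
    rw [← div_eq_mul_inv, hc.div_conj_eq_sub_one]
    ring

end Pool.Agent.H.MP_95d40a_an
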